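import Pool.Agent.Helper3.WT.Defs
import Pool.Agent.Helper48.ET.SelectOf

/-! WT-A2: choice of the parameters for all lengths `≤ M`. -/

set_option autoImplicit false

namespace Pool.Agent.Helper52.WT

open Finset Filter
open Pool.Agent.Helper48.ET
open Pool.Agent.Helper3.WT

section codes

variable {p : ℕ} [Fact p.Prime]

theorem select0_of {C M : ℕ} (hp : P0 C M < p)
    (pair_self : p ≠ 2 → ∀ {N : ℕ}, N ≤ M → ∀ θ : Par p, θ.lam ≠ 0 → ∀ t w : ℕ → ZMod p,
      (Sol C 0 N θ 0 N θ t w).ncard ≤ 2 ^ (Nat.log C M + 1))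
    (pair_lt : ∀ {N' N : ℕ}, 0 < N' → N' < N → N ≤ M → ∀ θ' : Par p,
      ∃ P : MvPolynomial (Option (ℕ × ℕ × ℕ)) (Om p), P ≠ 0 ∧ P.totalDegree ≤ 2 * Del C + 1 ∧
      ∀ θ : Par p, MvPolynomial.eval θ.val P ≠ 0 → ∀ t w : ℕ → ZMod p,
        (Sol C 0 N' θ' 0 N θ t w).ncard ≤ GG C M) :
    ∃ θ : ℕ → Par p, ∀ N' N, 0 < N' → N' ≤ N → N ≤ M → ∀ t w : ℕ → ZMod p,
      (Sol C 0 N' (θ N') 0 N (θ N) t w).ncard ≤ GG C M := by
  classical
  have hp' : M * (2 * Del C + 1) + 2 < p := hp
  have hN0 : 1 ≤ N0 C := Nat.one_le_pow _ _ (by positivity)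
  have : Inhabited (Par p) := ⟨⟨0, fun _ _ _ => 0⟩⟩
  have hstep : ∀ N, ∀ f : ℕ → Par p, ∃ v : Par p, v.lam ≠ 0 ∧ ∀ N' < N,
      0 < N' → N ≤ M → ∀ t w : ℕ → ZMod p,
        (Sol C 0 N' (f N') 0 N v t w).ncard ≤ GG C M := by
    intro N f
    by_cases hN : N ≤ M
    · -- the shorter lengths
      set Sh : Finset ℕ := (range N).filter (fun N' => 0 < N') with hSh
      have hcard : Sh.card ≤ M := by
        calc Sh.card ≤ (range N).card := card_filter_le _ _
          _ = N := card_range _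
          _ ≤ M := hN
      have hP : ∀ N' ∈ Sh, ∃ P : MvPolynomial (Option (ℕ × ℕ × ℕ)) (Om p), P ≠ 0 ∧
          P.totalDegree ≤ 2 * Del C + 1 ∧
          ∀ θ : Par p, MvPolynomial.eval θ.val P ≠ 0 → ∀ t w : ℕ → ZMod p,
            (Sol C 0 N' (f N') 0 N θ t w).ncard ≤ GG C M := by
        intro N' hN'
        rw [hSh, mem_filter, mem_range] at hN'
        exact pair_lt hN'.2 hN'.1 hN (f N')
      choose! P hP0 hPd hP using hP
      set Q : MvPolynomial (Option (ℕ × ℕ × ℕ)) (Om p) :=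
        MvPolynomial.X none * ∏ N' ∈ Sh, P N' with hQ
      have hQ0 : Q ≠ 0 := by
        rw [hQ]
        refine mul_ne_zero (MvPolynomial.X_ne_zero _) ?_
        rw [prod_ne_zero_iff]
        exact hP0
      have hQd : Q.totalDegree < p := by
        have h1 : Q.totalDegree ≤ 1 + Sh.card * (2 * Del C + 1) := by
          rw [hQ]
          refine (MvPolynomial.totalDegree_mul _ _).trans ?_
          rw [MvPolynomial.totalDegree_X]
          refine Nat.add_le_add_left ?_ 1
          refine (MvPolynomial.totalDegree_finsetProd _ _).trans ?_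
          exact (sum_le_card_nsmul _ _ _ hPd).trans (by simp)
        have h2 : Sh.card * (2 * Del C + 1) ≤ M * (2 * Del C + 1) :=
          Nat.mul_le_mul_right _ hcard
        omega
      obtain ⟨x, hx⟩ := exists_eval_ne_zero Q hQ0 hQd
      rw [hQ, map_mul, MvPolynomial.eval_X, map_prod] at hx
      have hx1 := left_ne_zero_of_mul hx
      have hx2 := right_ne_zero_of_mul hx
      rw [prod_ne_zero_iff] at hx2
      have hval : (⟨x none, fun i s u => x (some (i, s, u))⟩ : Par p).val =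
          fun v => algebraMap (ZMod p) (Om p) (x v) := by
        funext v
        rcases v with _ | ⟨i, s, u⟩ <;> rfl
      refine ⟨⟨x none, fun i s u => x (some (i, s, u))⟩, ?_, ?_⟩
      · intro h
        apply hx1
        change x none = 0 at h
        rw [h, map_zero]
      · intro N' hN' hpos _ t w
        have hmem : N' ∈ Sh := by
          rw [hSh, mem_filter, mem_range]
          exact ⟨hN', hpos⟩
        refine hP N' hmem _ ?_ t w
        rw [hval]
        exact hx2 N' hmem
    · refine ⟨⟨1, fun _ _ _ => 0⟩, one_ne_zero, ?_⟩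
      intro N' _ _ hM
      exact absurd hM hN
  obtain ⟨θ, hθ⟩ := SelAux.strong_choice
    (α := Par p)
    (fun N N' v' v => 0 < N' → N ≤ M → ∀ t w : ℕ → ZMod p,
        (Sol C 0 N' v' 0 N v t w).ncard ≤ GG C M)
    (fun _ v => v.lam ≠ 0) hstep
  refine ⟨θ, ?_⟩
  intro N' N hpos hle hM t w
  rcases hle.lt_or_eq with h | h
  · exact (hθ N).2 N' h hpos hM t w
  · subst h
    refine (pair_self (by omega) hM (θ N') (hθ N').1 t w).trans ?_
    unfold GG
    exact Nat.le_mul_of_pos_right _ (by positivity)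

end codes

end Pool.Agent.Helper52.WT
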